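import Pool.Agent.H459.CG.Res
import Pool.Agent.H459.CG.Bclg
import Pool.Agent.H459.CG.Bsmd
import Pool.Agent.H459.CG.Bgens

/-!
# 2-torsion in the class groups of extensions of odd degree (helper459)

For every number field `F` and every odd `n ≥ 3`: (1) the mean of the `s`-th power (`s < 1`) of the number of ideal
classes with trivial square in `F[x] / (f)`, `f` monic of degree `n` with integral coefficients and trace zero, is
bounded, with a bound for the tail; (2) the bound of the `ℓ`-torsion conjecture, `ℓ = 2`, holds for all `f` outside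
a set of proportion at most `C B ^ (-η)`; (3) at least `c X ^ (1 / 2 + 1 / n)` extensions of degree `n` of `F` with full
symmetric group and discriminant at most `X`, and of every degree divisible by `n`, have a bounded number of such
classes.

Auxiliary theorems by helpers 21, 71, 181, 307, 550, 696, 721, 788, 996 (files `Pool/Agent/H459/CG/B*.lean`) and by
the library (counting of polynomials and of number fields, reduction theory).
-/

set_option autoImplicit false

open Polynomial NumberField Filter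
open scoped Classical IntermediateField

namespace Pool.Agent.Results.MP_695920_nt.OddDegreeTwoTorsion

/-- The number of the ideal classes of `L` whose square is trivial. -/
noncomputable def tor (L : Type) [Field L] [NumberField L] : ℕ :=
  Nat.card {c : ClassGroup (𝓞 L) // c ^ 2 = 1}

/-- The monic polynomials of degree `n` over the integers of `F` without term of degree `n - 1` of height at most
`B`: the conjugates of the coefficient of `X ^ j` are at most `B ^ (n - j)` in absolute value. -/
def Box (F : Type) [Field F] [NumberField F] (n B : ℕ) : Set (𝓞 F)[X] :=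
  {f | f.Monic ∧ f.natDegree = n ∧ f.coeff (n - 1) = 0 ∧
    ∀ j < n, ∀ σ : F →+* ℂ, ‖σ (f.coeff j : F)‖ ≤ (B : ℝ) ^ (n - j)}

/-- `L` is an extension of `F` of degree `deg f` generated by a root of `f`. -/
def RootField {F : Type} [Field F] [NumberField F] (f : (𝓞 F)[X]) (L : Type) [Field L] [NumberField L]
    [Algebra F L] : Prop :=
  Module.finrank F L = f.natDegree ∧ ∃ θ : L, F⟮θ⟯ = ⊤ ∧ aeval θ (f.map (algebraMap (𝓞 F) F)) = 0

/-- The bounded moments and the tail. -/
def Moments (F : Type) [Field F] [NumberField F] (n : ℕ) : Prop :=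
  ∀ s : ℝ, 0 < s → s < 1 → ∃ (C : ℝ) (B₀ : ℕ), ∀ B ≥ B₀,
    (Box F n B).Finite ∧ (Box F n B).Nonempty ∧
    (∀ (T : Finset (𝓞 F)[X]) (L : (𝓞 F)[X] → Type) [∀ f, Field (L f)] [∀ f, NumberField (L f)]
      [∀ f, Algebra F (L f)], (∀ f ∈ T, f ∈ Box F n B ∧ RootField f (L f)) →
      ∑ f ∈ T, (tor (L f) : ℝ) ^ s ≤ C * ((Box F n B).ncard : ℝ)) ∧
    ∀ R : ℝ, 0 < R → ({f ∈ Box F n B | ¬ (Irreducible (f.map (algebraMap (𝓞 F) F)) ∧
      ∀ (L : Type) [Field L] [NumberField L] [Algebra F L], RootField f L → (tor L : ℝ) < R)}.ncard : ℝ) ≤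
      C * (R ^ (-s) + (B : ℝ) ^ (-((n : ℝ) - 1) * (Module.finrank ℚ F : ℝ))) *
        ((Box F n B).ncard : ℝ)

/-- The bound of the conjecture for almost all polynomials. -/
def Almost (F : Type) [Field F] [NumberField F] (n : ℕ) : Prop :=
  ∀ ε η : ℝ, 0 < η → η < ε → η ≤ 1 / 2 → ∃ (C : ℝ) (B₀ : ℕ), ∀ B ≥ B₀,
    ({f ∈ Box F n B | ¬ (Irreducible (f.map (algebraMap (𝓞 F) F)) ∧
      ∀ (L : Type) [Field L] [NumberField L] [Algebra F L], RootField f L →
        (tor L : ℝ) ≤ |(discr L : ℝ)| ^ ε)}.ncard : ℝ) ≤ C * (B : ℝ) ^ (-η) * ((Box F n B).ncard : ℝ)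

/-- All permutations of the embeddings of `E` in `Ω` over `F` are given by automorphisms of `Ω` over `F`. -/
def FullPerm (F E Ω : Type) [Field F] [Field E] [Field Ω] [Algebra F E] [Algebra F Ω] : Prop :=
  ∀ π : Equiv.Perm (E →ₐ[F] Ω), ∃ σ : Ω ≃ₐ[F] Ω, ∀ φ : E →ₐ[F] Ω, σ.toAlgHom.comp φ = π φ

/-- The Galois group of the Galois closure of `L / F` is the full symmetric group. -/
def Sym {F : Type} [Field F] (L : IntermediateField F (AlgebraicClosure F)) : Prop :=
  FullPerm F L (AlgebraicClosure F)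

/-- The extensions of degree `N` of `F` with the property `P`, discriminant at most `X` in absolute value and at most
`A` classes with trivial square. -/
def Fields (F : Type) [Field F] [NumberField F] (N A : ℕ) (X : ℝ)
    (P : IntermediateField F (AlgebraicClosure F) → Prop) : Set (IntermediateField F (AlgebraicClosure F)) :=
  {L | Module.finrank F L = N ∧ P L ∧ ∃ h : NumberField L, |(@discr L _ h : ℝ)| ≤ X ∧ @tor L _ h ≤ A}

/-- At least `c X ^ (1 / 2 + 1 / n)` of them. -/
def Many (F : Type) [Field F] [NumberField F] (N n : ℕ)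
    (P : IntermediateField F (AlgebraicClosure F) → Prop) : Prop :=
  ∃ (A : ℕ) (c : ℝ), 0 < c ∧ ∀ᶠ X : ℝ in atTop, (Fields F N A X P).Finite ∧
    c * X ^ (1 / 2 + 1 / n : ℝ) ≤ ((Fields F N A X P).ncard : ℝ)


theorem result (F : Type) [Field F] [NumberField F] (n : ℕ) (hn : 3 ≤ n) (hodd : Odd n) :
    Moments F n ∧ Almost F n ∧ Many F n n Sym ∧ ∀ N : ℕ, N ≠ 0 → n ∣ N → Many F N n (fun _ => True) := by
  have hC : Pool.Agent.H459.CG.S_CLG := fun F L => Pool.Agent.H307.CG.clg F L
  have hS : Pool.Agent.H459.CG.S_SMD := Pool.Agent.H21.CG.smd fun L => Pool.Agent.H996.CG.gens L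
  obtain ⟨g, rfl⟩ := hodd
  have hg : 1 ≤ g := by omega
  exact ⟨Pool.Agent.H459.CG.Res.moments hC F g hg, Pool.Agent.H459.CG.Res.almost' hC hS F g hg,
    Pool.Agent.H459.CG.Res.many_sym hC F g hg,
    fun N hN0 hN => Pool.Agent.H459.CG.Res.many_all hC F N (2 * g + 1) hn ⟨g, rfl⟩ hN hN0⟩

end Pool.Agent.Results.MP_695920_nt.OddDegreeTwoTorsion
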