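import Pool.Agent.H450.OM.Asym

/-!
# Large `μ`-torsion in class groups of number fields of degree prime to `μ`

For `n = 2`, `ℓ = 2` genus theory gives quadratic fields with `|Cl_K[2]|` as large as
`exp (c log D / log log D)`, and in the same way for all pairs with `ℓ ∣ n`. Here the same growth is proved for pairs
`(n, ℓ)` with `gcd (n, ℓ) = 1`: let `M ≥ 1`, `μ ≥ 2`, `μ ∣ M` if `M` is odd, `2 μ ∣ M` if `M` is even, and
`n = (M + 1) (M + 2) / 2`. Then for some `c > 0` there are number fields `K` of degree `n` with arbitrarily large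
`D = |disc K|` and `(ℤ/μ)^r ⊆ Cl_K`, `r ≥ c log D / log log D`.

The fields are the fields of pairs of roots `ℚ(θ₁ + θ₂, θ₁ θ₂)` of polynomials `f` of degree `M + 2` with
`f ≡ x^M (x - 1) (x + 1) + p mod p^2` for `N` primes `p` (see our hand-in `CoprimePairs` on `MP_176ace_nt`). New here is
the size of the discriminant: the primes are consecutive, the coefficients of `f` are chosen between `0` and the
square of the product `Q` of the primes, the roots are then at most `Q^2 + 1` and there is an integral generator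
`θ₁ θ₂ + k (θ₁ + θ₂)` of `K` with `0 ≤ k ≤ (M + 2)^4`, so `log D ≤ C log Q ≤ C' p_N` by Chebyshev's estimates,
while the rank is at least `N - C''` and `N` is of the order of `p_N / log p_N`.
-/

set_option autoImplicit false

namespace Pool.Agent.Results.MP_695920_nt.OmegaCoprimePairs

open NumberField

/-- For some `c > 0` there are number fields `K` of degree `n` with arbitrarily large `D = |disc K|` whose class
group contains `(ℤ/μ)^r` for some `r ≥ c log D / log log D`, and such that the number of the classes `x` with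
`x ^ μ = 1` is at least `D ^ (c / log log D)`. -/
def LargeTorsion (n μ : ℕ) : Prop :=
  ∃ c : ℝ, 0 < c ∧ ∀ B : ℕ, ∃ (K : Type) (_ : Field K) (_ : NumberField K),
    Module.finrank ℚ K = n ∧ (B : ℤ) < |discr K| ∧
    (∃ r : ℕ, c * (Real.log |(discr K : ℝ)| / Real.log (Real.log |(discr K : ℝ)|)) ≤ r ∧
      ∃ f : Multiplicative (Fin r → ZMod μ) →* ClassGroup (𝓞 K), Function.Injective f) ∧
    |(discr K : ℝ)| ^ (c / Real.log (Real.log |(discr K : ℝ)|)) ≤ Nat.card {x : ClassGroup (𝓞 K) // x ^ μ = 1}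

theorem two_mul_choose (M : ℕ) : 2 * (M + 2).choose 2 = (M + 2) * (M + 1) := by
  rw [Nat.choose_two_right, Nat.mul_div_cancel']
  · rfl
  · have : M + 2 - 1 = M + 1 := rfl
    rw [this]
    exact (Nat.even_mul_pred_self (M + 2)).two_dvd

theorem coprime {M μ : ℕ} (h : Odd M ∧ μ ∣ M ∨ 2 * μ ∣ M) : Nat.Coprime ((M + 2).choose 2) μ := by
  rcases h with ⟨h1, c, rfl⟩ | ⟨c, rfl⟩
  · have h2 : Nat.Coprime (2 * (μ * c + 2).choose 2) μ := by
      rw [two_mul_choose]
      have h3 : (μ * c + 2) * (μ * c + 1) = 2 + μ * (c * (μ * c + 3)) := by ring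
      rw [h3]
      have h4 : Nat.Coprime 2 μ := (Nat.coprime_two_left).2 (Nat.odd_mul.1 h1).1
      exact (Nat.coprime_add_mul_left_left 2 μ (c * (μ * c + 3))).2 h4
    exact Nat.Coprime.coprime_mul_left h2
  · have h2 := two_mul_choose (2 * μ * c)
    have h3 : (2 * μ * c + 2).choose 2 = 1 + μ * (c * (2 * μ * c + 3)) := by nlinarith
    rw [h3]
    exact (Nat.coprime_add_mul_left_left 1 μ _).2 (Nat.coprime_one_left μ)

theorem dvd_of {M μ : ℕ} (h : Odd M ∧ μ ∣ M ∨ 2 * μ ∣ M) (t : ℤ) (ht : (M : ℤ) ∣ 2 * t) : (μ : ℤ) ∣ t := by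
  rcases h with ⟨h1, h2⟩ | h1
  · obtain ⟨c, hc⟩ := h2
    have h3 : Odd μ := by
      rw [hc] at h1
      exact (Nat.odd_mul.1 h1).1
    have h4 : IsCoprime (μ : ℤ) 2 := by
      have : IsCoprime ((μ : ℕ) : ℤ) ((2 : ℕ) : ℤ) := Nat.isCoprime_iff_coprime.2 (Nat.coprime_two_right.2 h3)
      exact_mod_cast this
    apply h4.dvd_of_dvd_mul_left
    exact (Int.natCast_dvd_natCast.2 ⟨c, hc⟩).trans ht
  · have h2 : (2 * μ : ℤ) ∣ 2 * t := by
      refine Dvd.dvd.trans ?_ ht
      exact_mod_cast h1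
    exact (mul_dvd_mul_iff_left (two_ne_zero)).1 h2

theorem largeTorsion {M μ : ℕ} (hM : 0 < M) (hμ : 2 ≤ μ) (h : Odd M ∧ μ ∣ M ∨ 2 * μ ∣ M) :
    LargeTorsion ((M + 2).choose 2) μ := by
  obtain ⟨c, hc, hK⟩ := Pool.Agent.H450.OM.exists_large M μ hM.ne' hμ (dvd_of h)
  have hl2 : 0 < Real.log 2 := Real.log_pos (by norm_num)
  have hl2' : Real.log 2 ≤ 1 := by
    have := Real.log_two_lt_d9
    linarith
  have : NeZero μ := ⟨by omega⟩
  refine ⟨c * Real.log 2, by positivity, fun B => ?_⟩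
  obtain ⟨K, hK1, hK2, hK3, r, hr, F, hF⟩ := hK (max B 100)
  obtain ⟨D, hD⟩ : ∃ D : ℝ, D = |(discr K : ℝ)| := ⟨_, rfl⟩
  have hD100 : 100 < D := by
    rw [hD]
    have h1 : ((100 : ℕ) : ℤ) < |discr K| := lt_of_le_of_lt (by exact_mod_cast le_max_right B 100) hK3
    exact_mod_cast h1
  have hlD : 1 < Real.log D := by
    rw [Real.lt_log_iff_exp_lt (by linarith)]
    have := Real.exp_one_lt_d9
    linarith
  have hllD : 0 < Real.log (Real.log D) := Real.log_pos hlD
  rw [← hD] at hr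
  have hpos : 0 ≤ c * (Real.log D / Real.log (Real.log D)) := by positivity
  refine ⟨K, inferInstance, hK1, hK2, lt_of_le_of_lt (by exact_mod_cast le_max_left B 100) hK3,
    ⟨r, ?_, F, hF⟩, ?_⟩
  · rw [← hD]
    refine le_trans ?_ hr
    nlinarith
  · rw [← hD]
    have h1 : D ^ (c * Real.log 2 / Real.log (Real.log D)) ≤ (2 : ℝ) ^ (r : ℝ) := by
      rw [Real.rpow_def_of_pos (by linarith), Real.rpow_def_of_pos (by norm_num)]
      apply Real.exp_le_exp.2
      have h2 : Real.log D * (c * Real.log 2 / Real.log (Real.log D)) =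
          Real.log 2 * (c * (Real.log D / Real.log (Real.log D))) := by ring
      rw [h2]
      exact mul_le_mul_of_nonneg_left hr hl2.le
    refine h1.trans ?_
    rw [Real.rpow_natCast]
    have h2 : μ ^ r ≤ Nat.card {x : ClassGroup (𝓞 K) // x ^ μ = 1} := by
      have hpow : ∀ y : Multiplicative (Fin r → ZMod μ), y ^ μ = 1 := by
        intro y
        apply Multiplicative.toAdd.injective
        rw [toAdd_pow, toAdd_one]
        funext i
        simp
      let G : Multiplicative (Fin r → ZMod μ) → {x : ClassGroup (𝓞 K) // x ^ μ = 1} := fun y =>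
        ⟨F y, by rw [← map_pow, hpow, map_one]⟩
      have hG : Function.Injective G := fun a b hab => hF (congrArg Subtype.val hab)
      have h3 := Nat.card_le_card_of_injective G hG
      rw [Nat.card_congr Multiplicative.toAdd, Nat.card_fun, Nat.card_zmod] at h3
      simpa using h3
    have h3 : 2 ^ r ≤ μ ^ r := Nat.pow_le_pow_left hμ r
    exact_mod_cast h3.trans h2

/-- **Theorem.** (1) Let `M ≥ 1` and `μ ≥ 2`, with `μ ∣ M` if `M` is odd and `2 μ ∣ M` if `M` is even, and let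
`n = (M + 1) (M + 2) / 2`. Then `gcd (n, μ) = 1`, and for some `c > 0` there are number fields `K` of degree `n` with
`D = |disc K|` arbitrarily large, `(ℤ/μ)^r ⊆ Cl_K` for some `r ≥ c log D / log log D`, and
`|Cl_K[μ]| ≥ D ^ (c / log log D)`.
(2) In particular, for every prime `ℓ` this holds with `μ = ℓ` for infinitely many degrees `n` prime to `ℓ`. -/
theorem result :
    (∀ M μ : ℕ, 0 < M → 2 ≤ μ → (Odd M ∧ μ ∣ M ∨ 2 * μ ∣ M) →
      Nat.Coprime ((M + 2).choose 2) μ ∧ LargeTorsion ((M + 2).choose 2) μ) ∧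
    (∀ ℓ b : ℕ, ℓ.Prime → ∃ n : ℕ, b < n ∧ Nat.Coprime n ℓ ∧ LargeTorsion n ℓ) := by
  refine ⟨fun M μ hM hμ h => ⟨coprime h, largeTorsion hM hμ h⟩, fun ℓ b hℓ => ?_⟩
  have h0 : 2 * ℓ ∣ 2 * ℓ * (b + 1) := ⟨b + 1, rfl⟩
  have h1 : 0 < 2 * ℓ * (b + 1) := by
    have := hℓ.pos
    positivity
  refine ⟨(2 * ℓ * (b + 1) + 2).choose 2, ?_, coprime (Or.inr h0), largeTorsion h1 hℓ.two_le (Or.inr h0)⟩
  have h2 := two_mul_choose (2 * ℓ * (b + 1))
  have h3 : b + 1 ≤ 2 * ℓ * (b + 1) := by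
    have := hℓ.two_le
    nlinarith
  nlinarith

end Pool.Agent.Results.MP_695920_nt.OmegaCoprimePairs
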