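import Pool.Agent.H514.GE.BIG

/-! # Power savings for the 3-torsion of class groups: all sextic fields, Galois fields of degree
`2 ^ a * 3 ^ b`, towers, fields of even degree (MP_695920_nt)

Owner helper514.  The proof completes the programs of helper79 in the library (run efc1946e); see the
claim file and `departures/helper514.md` for the authors of the pieces. -/

set_option autoImplicit false

namespace Pool.Agent.Results.MP_695920_nt.SexticAndTowersThreeTorsion

open NumberField
open scoped nonZeroDivisors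

/-- the number of ideal classes of `L` whose cube is trivial -/
noncomputable def h3 (L : Type) [Field L] [NumberField L] : ℕ :=
  Nat.card {c : ClassGroup (𝓞 L) // c ^ 3 = 1}

/-- `L` has no primitive cube root of unity (it does not contain `√-3`) -/
def NoOmega (L : Type) [Field L] : Prop := ∀ z : L, z ^ 2 + z + 1 ≠ 0

/-- a power saving over the trivial bound, uniform in the fields with the property `P` -/
def Saving (P : ∀ (L : Type) [Field L] [NumberField L], Prop) : Prop :=
  ∃ δ C : ℝ, 0 < δ ∧ 0 < C ∧ ∀ (L : Type) [Field L] [NumberField L], P L →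
    (h3 L : ℝ) ≤ C * |(discr L : ℝ)| ^ (1 / 2 - δ : ℝ)

/-- the subfield `F` is joined to `L` by a tower of `k` cubic extensions -/
def CubicTower (L : Type) [Field L] [NumberField L] : ℕ → IntermediateField ℚ L → Prop
  | 0, F => F = ⊤
  | k + 1, F => ∃ E : IntermediateField ℚ L, F ≤ E ∧
      Module.finrank ℚ E = 3 * Module.finrank ℚ F ∧ CubicTower L k E

/-- every subfield of odd index is joined to `L` by a tower of cubic extensions, or has a discriminant of
absolute value at least `|discr L| ^ η` -/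
def OddSub (η : ℝ) (L : Type) [Field L] [NumberField L] : Prop :=
  ∀ F : IntermediateField ℚ L, Odd (Module.finrank F L) →
    (∃ k : ℕ, CubicTower L k F) ∨ |(discr L : ℝ)| ^ η ≤ |(discr F : ℝ)|

/-- the good fields: those of degree `2`, `4`, `6`, and those of degree at least `2` without `√-3` which
satisfy the condition on the subfields of odd index -/
def Good (η : ℝ) (E : Type) [Field E] [NumberField E] : Prop :=
  Module.finrank ℚ E = 2 ∨ Module.finrank ℚ E = 4 ∨ Module.finrank ℚ E = 6 ∨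
    (2 ≤ Module.finrank ℚ E ∧ NoOmega E ∧ OddSub η E)

/-- the field is generated by its good subfields -/
def Gen (η : ℝ) (L : Type) [Field L] [NumberField L] : Prop :=
  sSup {E : IntermediateField ℚ L | Good η E} = ⊤

/-- the field is the top of a tower of extensions of degree at most four -/
def Tower4 (L : Type) [Field L] [NumberField L] : Prop :=
  ∃ (r : ℕ) (G : ℕ → IntermediateField ℚ L), G 0 = ⊥ ∧ G r = ⊤ ∧ ∀ i < r, G i ≤ G (i + 1) ∧
    Module.finrank ℚ (G (i + 1)) ≤ 4 * Module.finrank ℚ (G i)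

/-- there are no subfields besides `ℚ` and the field itself -/
def Primitive (L : Type) [Field L] [NumberField L] : Prop := ∀ F : IntermediateField ℚ L, F = ⊥ ∨ F = ⊤

/-- all sextic fields -/
def Sextic : Prop := Saving fun L _ _ => Module.finrank ℚ L = 6

/-- `L` has a good subfield of large discriminant -/
def LargeGood (η : ℝ) (L : Type) [Field L] [NumberField L] : Prop :=
  ∃ E : IntermediateField ℚ L, Good η E ∧ |(discr L : ℝ)| ^ η ≤ |(discr E : ℝ)|

/-- the main theorem: the fields of degree `n` which are generated by good subfields, or which have a good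
subfield of large discriminant -/
def Main : Prop := ∀ n : ℕ, 2 ≤ n → ∀ η : ℝ, 0 < η →
  Saving fun L _ _ => Module.finrank ℚ L = n ∧ (Gen η L ∨ LargeGood η L)

/-- examples of good fields (for every `η`) -/
def GoodFields : Prop := ∀ (η : ℝ) (L : Type) [Field L] [NumberField L], 2 ≤ Module.finrank ℚ L →
  (NoOmega L ∧ ((∃ a : ℕ, Module.finrank ℚ L = 2 ^ a) ∨ (∃ a : ℕ, Module.finrank ℚ L = 3 * 2 ^ a) ∨
    Tower4 L)) ∨ (Module.finrank ℚ L = 9 ∧ ∃ F : IntermediateField ℚ L, Module.finrank ℚ F = 3) ∨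
  (Even (Module.finrank ℚ L) ∧ Primitive L) → Good η L

/-- examples of fields generated by good subfields: good fields; fields generated by the conjugates of a
good field (for instance normal closures); fields which contain `√-3` and a subfield of index two without
`√-3` which satisfies the condition; Galois fields of degree `2 ^ a * 3 ^ b`; Galois fields in whose Galois
group the maximal subgroups of even index have trivial intersection -/
def GenFields : Prop := ∀ (η : ℝ) (L : Type) [Field L] [NumberField L], 2 ≤ Module.finrank ℚ L →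
  Good η L ∨
  (∃ (E : Type) (_ : Field E) (_ : NumberField E), Good η E ∧ ⨆ f : E →ₐ[ℚ] L, f.fieldRange = ⊤) ∨
  (¬ NoOmega L ∧ ∃ F : IntermediateField ℚ L, Module.finrank F L = 2 ∧ 2 ≤ Module.finrank ℚ F ∧
    NoOmega F ∧ OddSub η F) ∨
  (IsGalois ℚ L ∧ ∃ a b : ℕ, Module.finrank ℚ L = 2 ^ a * 3 ^ b) ∨
  (IsGalois ℚ L ∧ sInf {H : Subgroup (L ≃ₐ[ℚ] L) | IsCoatom H ∧ Even H.index} = ⊥) → Gen η L

/-- the primitive fields of even degree, with an explicit exponent -/
def PrimitiveEven : Prop := ∀ n : ℕ, Even n → 4 ≤ n → ∀ ε : ℝ, 0 < ε → ∃ C : ℝ, 0 < C ∧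
  ∀ (L : Type) [Field L] [NumberField L], Module.finrank ℚ L = n → Primitive L →
    (h3 L : ℝ) ≤ C * |(discr L : ℝ)| ^ (1 / 2 - 1 / (3 * n * (n - 1)) + ε : ℝ)

theorem tow_iff {L : Type} [Field L] [NumberField L] : ∀ (k : ℕ) (F : IntermediateField ℚ L),
    CubicTower L k F ↔ Pool.Agent.H514.GE.Tow L k F
  | 0, F => Iff.rfl
  | k + 1, F => by
    constructor
    · rintro ⟨E, h1, h2, h3⟩
      exact ⟨E, h1, h2, (tow_iff k E).1 h3⟩
    · rintro ⟨E, h1, h2, h3⟩
      exact ⟨E, h1, h2, (tow_iff k E).2 h3⟩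

theorem oddSub_iff {η : ℝ} {L : Type} [Field L] [NumberField L] :
    OddSub η L ↔ Pool.Agent.H514.GE.OddTowE η L := by
  constructor
  · intro h F hF
    rcases h F hF with ⟨k, hk⟩ | h'
    · exact Or.inl ⟨k, (tow_iff k F).1 hk⟩
    · exact Or.inr h'
  · intro h F hF
    rcases h F hF with ⟨k, hk⟩ | h'
    · exact Or.inl ⟨k, (tow_iff k F).2 hk⟩
    · exact Or.inr h'

theorem good_iff {η : ℝ} {E : Type} [Field E] [NumberField E] :
    Good η E ↔ Pool.Agent.H514.GE.GoodE η E := by
  have h := oddSub_iff (η := η) (L := E)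
  constructor
  · rintro (h1 | h1 | h1 | ⟨h1, h2, h3⟩)
    · exact Or.inl h1
    · exact Or.inr (Or.inl h1)
    · exact Or.inr (Or.inr (Or.inl h1))
    · exact Or.inr (Or.inr (Or.inr ⟨h1, h2, h.1 h3⟩))
  · rintro (h1 | h1 | h1 | ⟨h1, h2, h3⟩)
    · exact Or.inl h1
    · exact Or.inr (Or.inl h1)
    · exact Or.inr (Or.inr (Or.inl h1))
    · exact Or.inr (Or.inr (Or.inr ⟨h1, h2, h.2 h3⟩))

theorem gen_iff {η : ℝ} {L : Type} [Field L] [NumberField L] :
    Gen η L ↔ Pool.Agent.H514.GE.GenE η L := by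
  have h : {E : IntermediateField ℚ L | Good η E} =
      {E : IntermediateField ℚ L | Pool.Agent.H514.GE.GoodE η E} := by
    ext E
    exact good_iff
  unfold Gen Pool.Agent.H514.GE.GenE
  rw [h]

theorem sextic : Sextic := by
  obtain ⟨δ, C, hδ, hC, h⟩ := Pool.Agent.H514.GE.g_SIX
  exact ⟨δ, C, hδ, hC, fun L _ _ hL => h L hL⟩

theorem main : Main := by
  intro n hn η hη
  obtain ⟨δ, C, hδ, hC, h⟩ := Pool.Agent.H514.GE.g_MAIN n hn η hη
  refine ⟨δ, C, hδ, hC, fun L _ _ hL => h L hL.1 ?_⟩
  rcases hL.2 with h' | ⟨E, hE, hED⟩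
  · exact Or.inl (gen_iff.1 h')
  · exact Or.inr ⟨E, good_iff.1 hE, hED⟩

theorem noOmega_of_odd {L : Type} [Field L] [NumberField L] (h : Odd (Module.finrank ℚ L)) : NoOmega L := by
  intro z hz
  have h2 := Pool.Agent.H514.GE.SIXN.deg_two hz
  have h3 := Module.finrank_mul_finrank ℚ (IntermediateField.adjoin ℚ {z}) L
  rw [h2] at h3
  rw [← h3] at h
  exact (Nat.not_even_iff_odd.2 h) (even_two_mul _)

theorem nonic {η : ℝ} {L : Type} [Field L] [NumberField L] (h9 : Module.finrank ℚ L = 9)
    (E : IntermediateField ℚ L) (hE : Module.finrank ℚ E = 3) : OddSub η L := by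
  intro F _
  left
  have hdvd : Module.finrank ℚ F ∣ 3 ^ 2 := by
    rw [show (3 : ℕ) ^ 2 = 9 by norm_num, ← h9]
    exact ⟨_, (Module.finrank_mul_finrank ℚ F L).symm⟩
  have htop : Module.finrank ℚ (⊤ : IntermediateField ℚ L) = 9 := by
    rw [IntermediateField.finrank_top', h9]
  obtain ⟨k, hk, hF⟩ := (Nat.dvd_prime_pow Nat.prime_three).1 hdvd
  have hcases : k = 0 ∨ k = 1 ∨ k = 2 := by omega
  rcases hcases with rfl | rfl | rfl
  · refine ⟨2, E, ?_, ?_, ⊤, le_top, ?_, rfl⟩
    · have hbot : F = ⊥ := IntermediateField.finrank_eq_one_iff.1 (by rw [hF, pow_zero])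
      rw [hbot]
      exact bot_le
    · rw [hE, hF]; norm_num
    · rw [htop, hE]
  · refine ⟨1, ⊤, le_top, ?_, rfl⟩
    rw [htop, hF]; norm_num
  · refine ⟨0, ?_⟩
    change F = ⊤
    refine IntermediateField.eq_of_le_of_finrank_eq le_top ?_
    rw [htop, hF]; norm_num

theorem goodFields : GoodFields := by
  intro η L _ _ h2 h
  rw [good_iff]
  rcases h with ⟨hno, h⟩ | ⟨h9, F, hF⟩ | ⟨hev, hp⟩
  · refine Or.inr (Or.inr (Or.inr ⟨h2, hno, ?_⟩))
    rcases h with h | h | h
    · exact (Pool.Agent.H514.GE.t_EXP L (Or.inl h)).toE η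
    · exact (Pool.Agent.H514.GE.t_EXP L (Or.inr (Or.inl h))).toE η
    · exact (Pool.Agent.H514.GE.t_TW4 L h).toE η
  · refine Or.inr (Or.inr (Or.inr ⟨h2, noOmega_of_odd (by rw [h9]; decide), ?_⟩))
    exact oddSub_iff.1 (nonic h9 F hF)
  · exact Pool.Agent.H514.GE.good_prim η L hev hp

theorem genFields : GenFields := by
  intro η L _ _ h2 h
  rw [gen_iff]
  rcases h with h | ⟨E, _, _, hE, h⟩ | ⟨hω, F, hF, hF2, hno, hO⟩ | ⟨hG, a, b, hab⟩ | ⟨hG, h⟩
  · exact (good_iff.1 h).gen
  · exact Pool.Agent.H514.GE.gen_of_normalClosure (good_iff.1 hE) h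
  · unfold NoOmega at hω
    push Not at hω
    obtain ⟨ω, hω⟩ := hω
    exact Pool.Agent.H514.GE.gen_of_index_two hω F hF hF2 hno (oddSub_iff.1 hO)
  · exact Pool.Agent.H514.GE.gen_gal η L a b hab h2
  · exact Pool.Agent.H514.GE.gen_max η L h

theorem primitiveEven : PrimitiveEven := by
  intro n hn h4 ε hε
  obtain ⟨C, hC, h⟩ := Pool.Agent.H514.GE.prim_even n hn h4 ε hε
  exact ⟨C, hC, fun L _ _ hL hp => h L hL hp⟩

/-- **the theorem** -/
theorem result : Sextic ∧ Main ∧ GoodFields ∧ GenFields ∧ PrimitiveEven :=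
  ⟨sextic, main, goodFields, genFields, primitiveEven⟩

end Pool.Agent.Results.MP_695920_nt.SexticAndTowersThreeTorsion
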