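import Pool.Agent.H514.NG.Fin
import Pool.Agent.H514.NG.PrimE

/-! # Power savings for the `ℓ`-torsion of class groups, for every `ℓ` (MP_695920_nt)

**Main theorem.**  A prime `p` is called bad for the subfield `R` of `L` if every prime of `R` above `p` has only
one prime of `L` above it.  The number field `L` satisfies the criterion with the constant `κ` if for every subfield
`R ≠ L` (`ℚ` included) there is a number field `F` of degree at most `κ` with `|D_F| ≤ κ |D_R| ^ κ` such that all bad
primes `p > κ` unramified in `L` have two prime factors of degree one in `F`.  Then for every `ℓ ≥ 1` there is `δ > 0`,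
depending only on `[L : ℚ]`, `ℓ` and `κ`, such that `#Cl_L[ℓ] = O(D_L ^ (1/2 - δ))`.  The same holds for the fields
generated by such subfields, or with such a subfield of large discriminant.

**Galois fields** satisfy the criterion if their group `G` has the following property: for every central
element `z` of prime order the elements `g` of which `z` is a power do not generate `G`; for instance if the centre
of `G` is trivial.

**Galois groups.**  A field `L` of degree `n` satisfies the criterion with `κ = n` if every subfield `R ≠ L` has a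
subfield `F` such that all `σ ∈ Gal(ℚ̄/ℚ)` which have as many orbits on the embeddings `L → ℚ̄` as on the embeddings
`R → ℚ̄` fix two embeddings of `F`: a condition on the Galois group of the Galois closure of `L` as a group of
permutations.  It holds for instance if there are no such `σ` (take `F = ℚ`).

**Parity.**  A field satisfies the criterion if `D_L = d m ^ 2` with bounded `d` and if for all subfields `R ≠ L` the
product `D_L * D_R` is a square if and only if the degrees of `L` and `R` have different parity.  For instance all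
quartic fields of square discriminant.

**Primitive fields.**  There is an explicit exponent for the fields of degree `n` without proper subfields whose Galois
group contains no `n`-cycle, and for those with `D_L = d m ^ 2`, `d` bounded, if `n` is even (e.g. the `A_n`-fields, `d = 1`)
or `d` is not a square.

Owner helper514.  For Galois fields this completes the project TOR of helper79 (library, run efc1946e); the
authors of the new pieces are named in `departures/helper514.md`. -/

set_option autoImplicit false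
set_option linter.unusedVariables false

namespace Pool.Agent.Results.MP_695920_nt.TorsionEveryL

open NumberField
open scoped nonZeroDivisors

/-- the number of ideal classes of `L` whose `ℓ`-th power is trivial -/
noncomputable def tor (ℓ : ℕ) (L : Type) [Field L] [NumberField L] : ℕ :=
  Nat.card {c : ClassGroup (𝓞 L) // c ^ ℓ = 1}

/-- a power saving over the trivial bound, uniform in the fields with the property `P` -/
def Saving (ℓ : ℕ) (P : ∀ (L : Type) [Field L] [NumberField L], Prop) : Prop :=
  ∃ δ C : ℝ, 0 < δ ∧ 0 < C ∧ ∀ (L : Type) [Field L] [NumberField L], P L →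
    (tor ℓ L : ℝ) ≤ C * |(discr L : ℝ)| ^ (1 / 2 - δ : ℝ)

/-! ### The main theorem -/

/-- different primes of `L` above `p` lie above different primes of the subfield `R` -/
def Bad {L : Type} [Field L] [NumberField L] (R : IntermediateField ℚ L) (p : ℕ) : Prop :=
  ∀ P Q : Ideal (𝓞 L), P.IsPrime → Q.IsPrime → (p : 𝓞 L) ∈ P → (p : 𝓞 L) ∈ Q →
    P.comap (algebraMap (𝓞 R) (𝓞 L)) = Q.comap (algebraMap (𝓞 R) (𝓞 L)) → P = Q

/-- for every subfield `R ≠ L` the bad primes `p > κ` which are unramified in `L` have two prime factors of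
degree one in a field `F` (independent of `p`) of degree at most `κ` and discriminant at most `κ |D_R| ^ κ` -/
def Criterion (κ : ℕ) (L : Type) [Field L] [NumberField L] : Prop :=
  ∀ R : IntermediateField ℚ L, R ≠ ⊤ → ∃ (F : Type) (_ : Field F) (_ : NumberField F),
    Module.finrank ℚ F ≤ κ ∧ |(discr F : ℝ)| ≤ κ * |(discr R : ℝ)| ^ κ ∧
    ∀ p : ℕ, p.Prime → κ < p → ¬ (p : ℤ) ∣ discr L → Bad R p →
      ∃ S : Finset (Ideal (𝓞 F)), 2 ≤ S.card ∧ ∀ Q ∈ S, Q.IsPrime ∧ Ideal.absNorm Q = p

/-- the fields of degree `n` with the criterion -/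
def Main : Prop := ∀ n ℓ κ : ℕ, 1 ≤ ℓ → Saving ℓ fun L _ _ => Module.finrank ℚ L = n ∧ Criterion κ L

/-- the fields of degree `n` which are generated by subfields with the criterion, or which have such a
subfield `E` with `|disc E| ≥ |disc L| ^ η` -/
def Generated : Prop := ∀ n ℓ κ : ℕ, 2 ≤ n → 1 ≤ ℓ → ∀ η : ℝ, 0 < η →
  Saving ℓ fun L _ _ => Module.finrank ℚ L = n ∧
    (sSup {E : IntermediateField ℚ L | Criterion κ E} = ⊤ ∨
      ∃ E : IntermediateField ℚ L, Criterion κ E ∧ |(discr L : ℝ)| ^ η ≤ |(discr E : ℝ)|)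

/-! ### Galois fields -/

/-- the condition on the group: if `z` is central of prime order, then the elements `g` with `z ∈ ⟨g⟩` do not
generate `G` -/
def Cond (G : Type) [Group G] : Prop :=
  ∀ z ∈ Subgroup.center G, (orderOf z).Prime → Subgroup.closure {g : G | z ∈ Subgroup.zpowers g} ≠ ⊤

/-- the Galois fields whose group satisfies the condition satisfy the criterion; examples of groups: trivial
centre; prime exponent and not cyclic; dihedral; symmetric; alternating -/
def GaloisFields : Prop :=
  (∀ (κ : ℕ) (L : Type) [Field L] [NumberField L], Module.finrank ℚ L ≤ κ → IsGalois ℚ L →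
    Cond (L ≃ₐ[ℚ] L) → Criterion κ L) ∧
  (∀ (G : Type) [Group G], Subgroup.center G = ⊥ → Cond G) ∧
  (∀ (G : Type) [Group G] (p : ℕ), p.Prime → (∀ g : G, g ^ p = 1) → ¬ IsCyclic G → Cond G) ∧
  (∀ m : ℕ, 3 ≤ m → Cond (DihedralGroup m)) ∧
  (∀ m : ℕ, 3 ≤ m → Cond (Equiv.Perm (Fin m))) ∧
  (∀ m : ℕ, 4 ≤ m → Cond (alternatingGroup (Fin m))) ∧
  (∀ (G H : Type) [Group G] [Group H], Nonempty (G ≃* H) → Cond G → Cond H)

/-! ### Galois groups -/

/-- `σ ∈ Gal(ℚ̄/ℚ)` has as many orbits on the embeddings `L → ℚ̄` as on the embeddings `R → ℚ̄` of the subfield `R`: two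
embeddings of `L` whose restrictions to `R` are in one orbit of the group generated by `σ` are in one orbit.  (The map
from the orbits on the embeddings of `L` to the orbits on those of `R` is surjective.  These sets are finite, so the
exponents `m` may be taken in `ℕ`.) -/
def SameOrbits {L : Type} [Field L] [NumberField L] (R : IntermediateField ℚ L)
    (σ : AlgebraicClosure ℚ ≃ₐ[ℚ] AlgebraicClosure ℚ) : Prop :=
  ∀ φ ψ : L →ₐ[ℚ] AlgebraicClosure ℚ, (∃ m : ℕ, ∀ y : R, φ (y : L) = (σ ^ m) (ψ (y : L))) →
    ∃ m : ℕ, ∀ y : L, φ y = (σ ^ m) (ψ y)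

/-- every subfield `R ≠ L` has a subfield `F` such that all `σ` with as many orbits on the embeddings of `L` as on those
of `R` fix two different embeddings of `F` (the restrictions to `F` of embeddings `φ, ψ` of `L`) -/
def Orbits (L : Type) [Field L] [NumberField L] : Prop :=
  ∀ R : IntermediateField ℚ L, R ≠ ⊤ → ∃ F : IntermediateField ℚ L, F ≤ R ∧
    ∀ σ : AlgebraicClosure ℚ ≃ₐ[ℚ] AlgebraicClosure ℚ, SameOrbits R σ →
      ∃ φ ψ : L →ₐ[ℚ] AlgebraicClosure ℚ, (∃ y : F, φ (y : L) ≠ ψ (y : L)) ∧
        (∀ y : F, σ (φ (y : L)) = φ (y : L)) ∧ ∀ y : F, σ (ψ (y : L)) = ψ (y : L)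

/-- the fields with `Orbits` satisfy the criterion -/
def OrbitFields : Prop := ∀ (L : Type) [Field L] [NumberField L],
  Orbits L → Criterion (Module.finrank ℚ L) L

/-! ### Parity -/

/-- the condition on the discriminants: `disc L = d m ^ 2` with `|d| ≤ κ`, and for the subfields `R ≠ L` the
product `disc L * disc R` is a square if and only if the degrees of `L` and `R` have different parity -/
def Parity (κ : ℕ) (L : Type) [Field L] [NumberField L] : Prop :=
  (∃ d m : ℤ, discr L = d * m ^ 2 ∧ |d| ≤ κ) ∧ ∀ R : IntermediateField ℚ L, R ≠ ⊤ →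
    (IsSquare (discr L * discr R) ↔ Odd (Module.finrank ℚ L + Module.finrank ℚ R))

/-- there are no subfields besides `ℚ` and the field itself -/
def Primitive (L : Type) [Field L] [NumberField L] : Prop := ∀ F : IntermediateField ℚ L, F = ⊥ ∨ F = ⊤

/-- the condition on the discriminants implies the criterion; it holds for the fields of even degree with
square discriminant in which the subfields `R ≠ ℚ, L` have a square discriminant if and only if their degree is
odd, for the quartic fields of square discriminant, and for the primitive fields of odd degree whose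
discriminant is not a square but a square times an integer of absolute value at most `κ` -/
def ParityFields : Prop :=
  (∀ (κ κ' : ℕ) (L : Type) [Field L] [NumberField L], 4 * κ + 2 ≤ κ' → Parity κ L → Criterion κ' L) ∧
  (∀ (L : Type) [Field L] [NumberField L], Even (Module.finrank ℚ L) → IsSquare (discr L) →
    (∀ R : IntermediateField ℚ L, R ≠ ⊥ → R ≠ ⊤ → (IsSquare (discr R) ↔ Odd (Module.finrank ℚ R))) →
    Parity 1 L) ∧
  (∀ (L : Type) [Field L] [NumberField L], Module.finrank ℚ L = 4 → IsSquare (discr L) → Parity 1 L) ∧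
  (∀ (κ : ℕ) (L : Type) [Field L] [NumberField L], Odd (Module.finrank ℚ L) → Primitive L →
    ¬ IsSquare (discr L) → (∃ d m : ℤ, discr L = d * m ^ 2 ∧ |d| ≤ κ) → Parity κ L)

/-- no `σ ∈ Gal(ℚ̄/ℚ)` permutes the embeddings `L → ℚ̄` in one cycle: the Galois group contains no `n`-cycle -/
def NoCycle (L : Type) [Field L] [NumberField L] : Prop :=
  ∀ σ : AlgebraicClosure ℚ ≃ₐ[ℚ] AlgebraicClosure ℚ, ∃ φ ψ : L →ₐ[ℚ] AlgebraicClosure ℚ,
    ∀ m : ℕ, ∃ y : L, φ y ≠ (σ ^ m) (ψ y)

/-- an explicit exponent for the primitive fields whose Galois group contains no `n`-cycle, and for the primitive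
fields whose discriminant is `d m ^ 2` with `|d| ≤ k` and which have even degree or a discriminant which is not a
square -/
def PrimitiveFields : Prop := ∀ n ℓ k : ℕ, 2 ≤ n → 1 ≤ ℓ → ∀ ε : ℝ, 0 < ε → ∃ C : ℝ, 0 < C ∧
  ∀ (L : Type) [Field L] [NumberField L], Module.finrank ℚ L = n → Primitive L →
    (NoCycle L ∨ ((∃ d m : ℤ, discr L = d * m ^ 2 ∧ |d| ≤ k) ∧ (Even n ∨ ¬ IsSquare (discr L)))) →
    (tor ℓ L : ℝ) ≤ C * |(discr L : ℝ)| ^ (1 / 2 - 1 / (ℓ * n * (n - 1)) + ε : ℝ)

/-! ### Proofs -/

theorem perm_center {m : ℕ} (hm : 3 ≤ m) : Subgroup.center (Equiv.Perm (Fin m)) = ⊥ := by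
  rw [eq_bot_iff]
  intro z hz
  rw [Subgroup.mem_center_iff] at hz
  rw [Subgroup.mem_bot]
  by_contra hne
  obtain ⟨a, ha⟩ : ∃ a, z a ≠ a := by
    by_contra h
    push Not at h
    exact hne (Equiv.ext h)
  obtain ⟨b, hb⟩ : ∃ b : Fin m, b ∉ ({a, z a} : Finset (Fin m)) := by
    by_contra h
    push Not at h
    have h1 : (Finset.univ : Finset (Fin m)) ⊆ {a, z a} := fun x _ => h x
    have h2 := Finset.card_le_card h1
    rw [Finset.card_univ, Fintype.card_fin] at h2
    have h3 : ({a, z a} : Finset (Fin m)).card ≤ 2 := Finset.card_le_two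
    omega
  rw [Finset.mem_insert, Finset.mem_singleton, not_or] at hb
  have h1 := congrArg (fun e : Equiv.Perm (Fin m) => e a) (hz (Equiv.swap a b))
  simp only [Equiv.Perm.mul_apply, Equiv.swap_apply_left] at h1
  rw [Equiv.swap_apply_of_ne_of_ne ha (Ne.symm hb.2)] at h1
  exact hb.1 (z.injective h1).symm

theorem galoisFields : GaloisFields :=
  ⟨fun κ L _ _ h1 h2 h3 => Pool.Agent.H514.NG.crit_gal h1 h2 h3,
    fun G _ h => Pool.Agent.H514.TR.grpC_of_center h,
    fun G _ p hp h hc => Pool.Agent.H514.TR.grpC_of_exponent hp h hc,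
    fun m hm => Pool.Agent.H514.TR.grpC_dihedral hm,
    fun m hm => Pool.Agent.H514.TR.grpC_of_center (perm_center hm),
    fun m hm => Pool.Agent.H514.TR.grpC_of_center
      (alternatingGroup.center_eq_bot (by rw [Nat.card_eq_fintype_card, Fintype.card_fin]; exact hm)),
    fun G H _ _ ⟨e⟩ h => Pool.Agent.H514.TR.GrpC.equiv e h⟩

theorem main : Main := by
  intro n ℓ κ hℓ
  obtain ⟨δ, C, hδ, hC, h⟩ := Pool.Agent.H514.NG.g_NG n ℓ κ hℓ
  exact ⟨δ, C, hδ, hC, fun L _ _ hL => h L hL.1 hL.2⟩

theorem parityFields : ParityFields :=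
  ⟨fun κ κ' L _ _ hκ h => Pool.Agent.H514.NG.crit_mono hκ (Pool.Agent.H514.NG.g_PAR κ L h),
    fun L _ _ h1 h2 h3 => Pool.Agent.H514.NG.par_even h1 h2 h3,
    fun L _ _ h1 h2 => Pool.Agent.H514.NG.par_quartic h1 h2,
    fun κ L _ _ h1 h2 h3 h4 => Pool.Agent.H514.NG.par_odd h1 h3 h2 h4⟩

theorem orbitFields : OrbitFields := fun L _ _ h => Pool.Agent.H514.NG.crit_orbG h

theorem primitiveFields : PrimitiveFields := fun n ℓ k hn hℓ ε hε =>
  Pool.Agent.H514.NG.prim_all k hn hℓ hε

theorem generated : Generated := by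
  intro n ℓ κ hn hℓ η hη
  have hP : ∀ n, Pool.Agent.H514.NG.Sv (fun L _ _ => Criterion κ L) ℓ n := by
    intro n
    obtain ⟨δ, C, hδ, hC, h⟩ := main n ℓ κ hℓ
    exact ⟨δ, C, hδ, hC, fun L _ _ h1 h2 => h L ⟨h1, h2⟩⟩
  obtain ⟨δ, C, hδ, hC, h⟩ := Pool.Agent.H514.NG.mainP hP n hn η hη
  exact ⟨δ, C, hδ, hC, fun L _ _ hL => h L hL.1 hL.2⟩

/-- **the theorem** -/
theorem result : Main ∧ Generated ∧ GaloisFields ∧ OrbitFields ∧ ParityFields ∧ PrimitiveFields :=
  ⟨main, generated, galoisFields, orbitFields, parityFields, primitiveFields⟩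

end Pool.Agent.Results.MP_695920_nt.TorsionEveryL
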